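import Pool.Agent.LibUC88.Z1

/-! The cell integrals in the language of stage 2. -/

open MeasureTheory Set Filter Topology
open scoped ContDiff ENNReal NNReal ComplexConjugate

namespace UC88

open BGS BR HG20 B35
open E35 (Cl tv pt xi)

variable {Γ : Type} [Group Γ] [MulAction Γ Pl] {D : Set Pl} {μ : Pl → Co} {a b LK r : ℝ} {Λ : ℕ}
  {G : SR85.Dat Γ} {M : Cl G} {Φ : Cg Γ → ConjClasses Γ}

theorem pt_gfl (hc : Ctx D μ a b LK G) (hD : Dic μ M Φ) (q : Cg Γ) (t : ℝ) :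
    pt G (tv M (Φ q)) t = (gfl μ t (ax μ (gpr q))).1 := by
  unfold pt tv
  simp only
  rw [hD.x0, hD.u0, SR85Z.Z_E hc, Ex_ray hc.hX hc.hm]

theorem xi_vis (hc : Ctx D μ a b LK G) (hU : E35.UC D a b r Λ G) (hD : Dic μ M Φ) {R : ℕ}
    (hR : 1 ≤ R) (p : ℤ × ℤ) (q : Cg Γ) :
    xi M R p (Φ q) = ((q.2.1 : ℝ) + 1) * vis μ R p q.1 := by
  have hT : per Γ (BGM.bmq R p) ∈ Test Γ :=
    per_mem hc.hX (BGM.bmq_smooth R p) (BGM.bmq_compact hR p)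
  have hF : Continuous (per Γ (BGM.bmq R p)) := hT.1.continuous
  have h1 : xi M R p (Φ q) = (M.n (Φ q) : ℝ) *
      ∫ t in (0 : ℝ)..M.l0 (Φ q), per Γ (BGM.bmq R p) (pt G (tv M (Φ q)) t) :=
    E35.per_int (hg_ctx hc) M (hD.ne q) hF hT.2
  set q0 : Cg Γ := (q.1, 0, true) with hq0
  have hrel : E35.Rel M (Φ q0) (Φ q) := (rel_iff hc hD q0 q).2 rfl
  obtain ⟨γ, hγ⟩ := E35.rel_same hU M (hD.ne q0) (hD.ne q) hrel
  have h2 := E35.same_int hU M (hD.ne q0) (hD.ne q) hγ hF hT.2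
  rw [h1, h2, hD.n, hD.l0]
  have h3 : ∀ t, pt G (tv M (Φ q0)) t = (gfl μ t (ax μ (GH.rep q.1))).1 := fun t =>
    pt_gfl hc hD q0 t
  simp only [h3]
  push_cast
  rfl

end UC88
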