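import Pool.Agent.LibBE35E.Defs
import Pool.Agent.LibBE35.CL3
import Pool.Agent.LibHG20.G10
import Pool.Agent.LibBE88.V12
import Pool.Agent.LibBE88.W2

/-! The uniform constants of a conformal family: the structure `E35.UC` of part E of BE35. -/

open MeasureTheory Set Filter Topology
open scoped ContDiff ENNReal NNReal ComplexConjugate

namespace BE

open BGS BR HG20

variable {Γ : Type} [Group Γ] [MulAction Γ Pl] {D : Set Pl}
variable {ι P : Type} [NormedAddCommGroup P] [NormedSpace ℝ P] [FiniteDimensional ℝ P]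
  {m : Pl → Co} {a b : ℝ} {s : ι → P × Pl → ℝ}

/-- The Jacobi field in terms of the density. -/
theorem J_wt {M : Pl → Co} {a' b' LK : ℝ} {G : SR85.Dat Γ} (hc : Ctx D M a' b' LK G) {x y : Pl}
    (hne : x ≠ y) : G.J x y = ds M x y * wt (Gx M x) (Vx M x y) := by
  have hX := hc.hX
  have hm := hc.hm
  have hds : 0 < ds M x y := ds_pos hX hm hne
  have hV : ds M x y • BR.dr M x y = Vx M x y := AN0_smul hX hm hne
  have hu : eu (BR.dr M x y) = 1 := dr_unit hX hm hne
  have h2 : wt (Gx M x) (Vx M x y) = JB M x (BR.dr M x y) (ds M x y) / ds M x y := by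
    unfold wt Gx
    rw [← hV, mE_dt hX hm hu hds]
    have h3 := (JB_ge hX hm (x := x) hu hds.le).1
    exact Real.sqrt_sq (div_nonneg (hds.le.trans h3) hds.le)
  rw [(G7_U hc hne).1, h2]
  field_simp

theorem J_log {M : Pl → Co} {a' b' LK : ℝ} {G : SR85.Dat Γ} (hc : Ctx D M a' b' LK G) {x y : Pl}
    (hne : x ≠ y) :
    Real.log (G.J x y) = Real.log (ds M x y) + Real.log (wt (Gx M x) (Vx M x y)) := by
  have hds : 0 < ds M x y := ds_pos hc.hX hc.hm hne
  have hwt := (wt_form hc.hX hc.hm x (Vx M x y)).2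
  rw [J_wt hc hne, Real.log_mul hds.ne' (by linarith)]

/-- The density is symmetric. -/
theorem wt_symm {M : Pl → Co} {a' b' LK : ℝ} {G : SR85.Dat Γ} (hc : Ctx D M a' b' LK G)
    (x y : Pl) : Real.log (wt (Gx M x) (Vx M x y)) = Real.log (wt (Gx M y) (Vx M y x)) := by
  rcases eq_or_ne x y with rfl | hne
  · rfl
  · have h1 := J_log hc hne
    have h2 := J_log hc hne.symm
    have h3 := SR85.J_symm (hg_ctx hc) x y
    rw [h3, h2, ds_comm hc.hX hc.hm] at h1
    linarith

/-- The Lipschitz estimate for the logarithm of the Jacobi fields. -/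
theorem J_lip (h : CF Γ D m a b s) : ∃ n : ℕ, ∀ (i : ι) (p : P), ‖p‖ ≤ 1 →
    ∀ (a' b' LK : ℝ) (G : SR85.Dat Γ), Ctx D (mm m (s i) p) a' b' LK G →
    ∀ x y x' y' : Pl, 1 ≤ G.d x y → G.d x x' + G.d y y' ≤ 1 / 4 →
      |Real.log (G.J x y) - Real.log (G.J x' y')| ≤
        n * (1 + G.d x y) ^ n * (G.d x x' + G.d y y') := by
  obtain ⟨n1, hn1⟩ := Adm_lip h (Adm_ff h) (1 / 4)
  refine ⟨max n1 (2 + 2 * n1 * 3 ^ n1), fun i p hp a' b' LK G hc x y x' y' h1 h2 => ?_⟩
  set n : ℕ := max n1 (2 + 2 * n1 * 3 ^ n1) with hn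
  have hn2 : (2 : ℝ) + 2 * n1 * 3 ^ n1 ≤ n := by
    have : 2 + 2 * n1 * 3 ^ n1 ≤ n := le_max_right _ _
    exact_mod_cast this
  have hn3 : n1 ≤ n := le_max_left _ _
  set M : Pl → Co := mm m (s i) p with hM
  have hd : ∀ u v, G.d u v = ds M u v := G7_d hc
  rw [hd, hd, hd] at *
  have hmm := hc.hm
  have d0 : ∀ u v, 0 ≤ ds M u v := fun u v => Real.sqrt_nonneg _
  have t1 := ds_mm_tri h i p x x' y
  have t2 := ds_mm_tri h i p x' y' y
  rw [← hM] at t1 t2
  have c1 : ds M y' y = ds M y y' := ds_comm h.hX hmm y' y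
  have c2 : ds M x' x = ds M x x' := ds_comm h.hX hmm x' x
  have p1 := d0 x x'
  have p2 := d0 y y'
  have hlow : 3 / 4 ≤ ds M x' y' := by
    rw [c1] at t2
    linarith
  have t3 := ds_mm_tri h i p x y y'
  rw [← hM] at t3
  have t4 := ds_mm_tri h i p x y' y
  rw [← hM, c1] at t4
  have hxy : x ≠ y := by
    rintro rfl
    have h5 : ds M x x = 0 := by
      unfold ds
      rw [Vx_self h.hX hmm]
      simp [eu]
    rw [h5] at h1
    linarith
  have hxy' : x' ≠ y' := by
    rintro rfl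
    have h5 : ds M x' x' = 0 := by
      unfold ds
      rw [Vx_self h.hX hmm]
      simp [eu]
    rw [h5] at hlow
    linarith
  rw [J_log hc hxy, J_log hc hxy']
  -- the distances
  have e1 : |Real.log (ds M x y) - Real.log (ds M x' y')| ≤ 2 * (ds M x x' + ds M y y') := by
    have k1 : |ds M x y - ds M x' y'| ≤ ds M x x' + ds M y y' := by
      have t5 := ds_mm_tri h i p x' x y'
      rw [← hM, c2] at t5
      rw [c1] at t2
      rw [abs_le]
      constructor <;> linarith
    have k2 : ∀ u v : ℝ, 3 / 4 ≤ u → 3 / 4 ≤ v → Real.log u - Real.log v ≤ 2 * |u - v| := by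
      intro u v hu hv
      have hv0 : 0 < v := by linarith
      have hu0 : 0 < u := by linarith
      rw [← Real.log_div hu0.ne' hv0.ne']
      refine (Real.log_le_sub_one_of_pos (div_pos hu0 hv0)).trans ?_
      rw [div_sub_one hv0.ne', div_le_iff₀ hv0]
      have := le_abs_self (u - v)
      nlinarith [abs_nonneg (u - v)]
    rw [abs_le]
    have k3 := k2 (ds M x y) (ds M x' y') (by linarith) hlow
    have k4 := k2 (ds M x' y') (ds M x y) hlow (by linarith)
    rw [abs_sub_comm] at k4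
    constructor <;> linarith
  -- the densities
  have hff : ∀ u v, Real.log (wt (Gx M u) (Vx M u v)) = ff m (s i) (p, u, v) := fun _ _ => rfl
  have hdk : ∀ (g : Γ) (u v : Pl), ds M (g • u) (g • v) = ds M u v := fun g u v =>
    (ds_deck h.hX h.hO hmm g u v).1
  have e2 : |ff m (s i) (p, x, y) - ff m (s i) (p, x, y')| ≤
      n1 * (2 + ds M x y) ^ n1 * ds M y y' := by
    obtain ⟨g, hg, -⟩ := h.hX.orbit x
    have k1 := hn1 i p hp (g • x) (subset_closure hg) (g • y) (g • y')
    rw [← hM, hdk, hdk] at k1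
    have k2 := k1 (by linarith)
    rw [ff_deck h, ff_deck h, abs_sub_comm] at k2
    exact k2
  have hsym : ∀ u v, ff m (s i) (p, u, v) = ff m (s i) (p, v, u) := fun u v => wt_symm hc u v
  have e3 : |ff m (s i) (p, x, y') - ff m (s i) (p, x', y')| ≤
      n1 * (2 + ds M x y') ^ n1 * ds M x x' := by
    obtain ⟨g, hg, -⟩ := h.hX.orbit y'
    have k1 := hn1 i p hp (g • y') (subset_closure hg) (g • x) (g • x')
    rw [← hM, hdk, hdk] at k1
    have k2 := k1 (by linarith)
    rw [ff_deck h, ff_deck h, abs_sub_comm] at k2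
    rw [hsym x y', hsym x' y', ds_comm h.hX hmm x y']
    exact k2
  have pw : ∀ t : ℝ, 0 ≤ t → t ≤ ds M x y + 1 / 4 →
      (2 + t) ^ n1 ≤ 3 ^ n1 * (1 + ds M x y) ^ n1 := by
    intro t ht0 ht
    rw [← mul_pow]
    refine pow_le_pow_left₀ (by linarith) ?_ n1
    have := d0 x y
    linarith
  have q1 := pw (ds M x y) (d0 x y) (by linarith)
  have q2 := pw (ds M x y') (d0 x y') (by linarith)
  have hA : 0 ≤ (1 + ds M x y) := by linarith [d0 x y]
  have hA1 : (1 : ℝ) ≤ (1 + ds M x y) ^ n1 := one_le_pow₀ (by linarith [d0 x y])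
  rw [hff, hff]
  have f1 : |Real.log (ds M x y) + ff m (s i) (p, x, y) -
      (Real.log (ds M x' y') + ff m (s i) (p, x', y'))| ≤
      |Real.log (ds M x y) - Real.log (ds M x' y')| +
      (|ff m (s i) (p, x, y) - ff m (s i) (p, x, y')| +
        |ff m (s i) (p, x, y') - ff m (s i) (p, x', y')|) := by
    have e : Real.log (ds M x y) + ff m (s i) (p, x, y) -
      (Real.log (ds M x' y') + ff m (s i) (p, x', y')) =
      (Real.log (ds M x y) - Real.log (ds M x' y')) +
      ((ff m (s i) (p, x, y) - ff m (s i) (p, x, y')) +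
        (ff m (s i) (p, x, y') - ff m (s i) (p, x', y'))) := by ring
    rw [e]
    exact (abs_add_le _ _).trans (add_le_add le_rfl (abs_add_le _ _))
  refine f1.trans ?_
  set A : ℝ := (1 + ds M x y) ^ n1 with hAd
  have g1 : (n1 : ℝ) * (2 + ds M x y) ^ n1 * ds M y y' ≤ n1 * (3 ^ n1 * A) * ds M y y' := by
    gcongr
  have g2 : (n1 : ℝ) * (2 + ds M x y') ^ n1 * ds M x x' ≤ n1 * (3 ^ n1 * A) * ds M x x' := by
    gcongr
  have g3 : 2 * (ds M x x' + ds M y y') ≤ 2 * A * (ds M x x' + ds M y y') := by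
    have : 0 ≤ ds M x x' + ds M y y' := by linarith
    nlinarith
  have g4 : (2 + 2 * n1 * 3 ^ n1) * A * (ds M x x' + ds M y y') ≤
      n * (1 + ds M x y) ^ n * (ds M x x' + ds M y y') := by
    refine mul_le_mul_of_nonneg_right ?_ (by linarith)
    exact mul_le_mul hn2 (pow_le_pow_right₀ (by linarith [d0 x y]) hn3) (by positivity)
      (Nat.cast_nonneg _)
  refine le_trans ?_ g4
  have g5 : 0 ≤ (n1 : ℝ) * 3 ^ n1 * A * (ds M x x' + ds M y y') := by positivity
  nlinarith

end BE
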