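import Pool.Agent.LibUC88.U1

/-! The uniform constants of a conformal family: the structure `E35.UC` of part E of BE35. -/

open MeasureTheory Set Filter Topology
open scoped ContDiff ENNReal NNReal ComplexConjugate

namespace BE

open BGS BR HG20

variable {Γ : Type} [Group Γ] [MulAction Γ Pl] {D : Set Pl}
variable {ι P : Type} [NormedAddCommGroup P] [NormedSpace ℝ P] [FiniteDimensional ℝ P]
  {m : Pl → Co} {a b : ℝ} {s : ι → P × Pl → ℝ}

omit [FiniteDimensional ℝ P] in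
/-- The distances of the family are bounded by the distance of `m`. -/
theorem ds_up (h : CF Γ D m a b s) : ∃ C : ℝ, 1 ≤ C ∧ ∀ (i : ι) (p : P), ‖p‖ ≤ 1 →
    ∀ x y : Pl, ds (mm m (s i) p) x y ≤ C * ds m x y := by
  obtain ⟨C, hC0, hC⟩ := s_bdd h
  obtain ⟨a', b', ha', -, hK⟩ := curv_bounds h.hX h.hm
  refine ⟨Real.exp (C / 2), Real.one_le_exp (by linarith), fun i p hp x y => ?_⟩
  have hs : ContDiff ℝ ∞ (fun z : Pl => s i (p, z)) :=
    (h.smooth i).comp (contDiff_const.prodMk contDiff_id)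
  have h1 := BGM.D1_ds (f := fun z : Pl => s i (p, z)) (f' := fun _ => 0) (ε := C)
    ⟨h.hm.smooth, h.hm.pos⟩ hs contDiff_const (fun z => by
      have := (abs_le.1 (hC i p hp z)).2
      linarith) x y
  rw [BGM.D1_zero] at h1
  have h2 : BGM.cf (fun z : Pl => s i (p, z)) m = mm m (s i) p := rfl
  rw [h2, ds_mm_bgm h] at h1
  have h3 : BGM.ds m x y = ds m x y := ds_bgm h.hX h.hm (fun z => (hK z).1) x y
  rwa [h3] at h1

/-- **The uniform constants.** -/
theorem UC_CF (h : CF Γ D m a b s) : ∃ (b' r : ℝ) (Λ : ℕ), ∀ (i : ι) (p : P), ‖p‖ ≤ 1 →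
    ∫ z in D, √(dt (mm m (s i) p z)) = 1 → ∃ LK : ℝ,
      Ctx D (mm m (s i) p) a b' LK (dat Γ (mm m (s i) p) a b' LK) ∧
      E35.UC D a b' r Λ (dat Γ (mm m (s i) p) a b' LK) := by
  obtain ⟨c1, hc1, hsys⟩ := ds_low h
  obtain ⟨C2, hC2, hcmp⟩ := ds_cmp h
  obtain ⟨C3, hC3, hup⟩ := ds_up h
  obtain ⟨C4, hC4⟩ := count_deck h.hX h.hO h.hm
  obtain ⟨n5, hn5⟩ := J_lip h
  have hK : IsCompact (closure D) := h.hX.bdd.isCompact_closure
  obtain ⟨a0, b0, ha0, hab0, hK0⟩ := curv_bounds h.hX h.hm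
  have hb0 : 0 < b0 := ha0.trans_le hab0
  have hHad := BGM.had_of h.hX h.hm hb0 (fun z => (hK0 z).1)
  have hbgm : ∀ x y, BGM.ds m x y = ds m x y := ds_bgm h.hX h.hm (fun z => (hK0 z).1)
  obtain ⟨C6, hC6, hlow⟩ := BGM.CL_low hHad hK
  obtain ⟨R, hR⟩ := hK.isBounded.subset_closedBall (0 : Pl)
  obtain ⟨C7, hC7, hle⟩ := BGM.ds_le_norm (m := m) ⟨h.hm.smooth, h.hm.pos⟩
    (isCompact_closedBall (0 : Pl) (R + 1)) (convex_closedBall _ _)
  -- the bound of the distances in the fundamental domain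
  obtain ⟨C8, hC8⟩ : ∃ C8 : ℝ, ∀ x ∈ closure D, ∀ y ∈ closure D, ds m x y ≤ C8 := by
    refine ⟨C7 * (2 * R), fun x hx y hy => ?_⟩
    have hx' := mem_closedBall_zero_iff.1 (hR hx)
    have hy' := mem_closedBall_zero_iff.1 (hR hy)
    have h1 := hle x (mem_closedBall_zero_iff.2 (by linarith)) y
      (mem_closedBall_zero_iff.2 (by linarith))
    rw [hbgm] at h1
    refine h1.trans (mul_le_mul_of_nonneg_left ?_ (by linarith))
    exact (norm_sub_le _ _).trans (by linarith)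
  set b' : ℝ := max |b| a with hb'
  have hb'1 : |b| ≤ b' := le_max_left _ _
  have hb'2 : a ≤ b' := le_max_right _ _
  set B : ℝ := 1 + |C4| * (1 + C2) + n5 + C3 * |C8| + C3 * C7 + C2 * C6 + C2 with hB
  have k1 := abs_nonneg C4
  have k2 := abs_nonneg C8
  have k3 : 0 ≤ |C4| * (1 + C2) := by positivity
  have k4 : 0 ≤ C3 * |C8| := by positivity
  have k5 : 0 ≤ C3 * C7 := by positivity
  have k6 : 0 ≤ C2 * C6 := by positivity
  have k7 : (0 : ℝ) ≤ n5 := Nat.cast_nonneg _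
  set Λ : ℕ := max n5 ⌈B⌉₊ with hΛ
  have hBΛ : B ≤ Λ := (Nat.le_ceil B).trans (by exact_mod_cast le_max_right _ _)
  have hnΛ : n5 ≤ Λ := le_max_left _ _
  have hΛ1 : (1 : ℝ) ≤ Λ := by linarith
  refine ⟨b', min c1 1, Λ, fun i p hp har => ?_⟩
  set M : Pl → Co := mm m (s i) p with hM
  have hmm : HM Γ M := hm_mm h i p
  obtain ⟨LK, hLK, hlip⟩ := G3_lip h.hX hmm
  have hKge : ∀ z, -b' ^ 2 ≤ curv M z := by
    intro z
    have h1 := (h.neg i p z).1
    have h2 : b ^ 2 ≤ b' ^ 2 := by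
      rw [← sq_abs b]
      exact pow_le_pow_left₀ (abs_nonneg b) hb'1 2
    linarith
  have hc : Ctx D M a b' LK (dat Γ M a b' LK) :=
    ⟨h.hX, h.hO, hmm, har, h.a_pos, hb'2, hLK, fun z => (h.neg i p z).2, hKge, hlip, rfl⟩
  refine ⟨LK, hc, ?_⟩
  have hd : ∀ u v, (dat Γ M a b' LK).d u v = ds M u v := G7_d hc
  have d0 : ∀ u v, 0 ≤ ds M u v := fun u v => Real.sqrt_nonneg _
  have d0m : ∀ u v, 0 ≤ ds m u v := fun u v => Real.sqrt_nonneg _
  have hcmp' := hcmp i p hp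
  have hup' := hup i p hp
  rw [← hM] at hcmp' hup'
  refine ⟨h.hX, hg_ctx hc, rfl, rfl, lt_min hc1 one_pos, min_le_right _ _, by exact_mod_cast hΛ1,
    ?_, ?_, ?_, ?_, ?_, ?_⟩
  · intro g hg x
    rw [hd]
    exact (min_le_left _ _).trans (hsys i p hp x g hg)
  · intro t ht x hx y hy
    have h1 := hC4 (C2 * t) (by positivity)
    have hsub : {g : Γ | (dat Γ M a b' LK).d x (g • y) ≤ t} ⊆
        {γ : Γ | ∃ x ∈ closure D, ∃ y ∈ closure D, eu (Vx m x (γ • y)) ≤ C2 * t} := by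
      intro g hg
      refine ⟨x, hx, y, hy, ?_⟩
      have hg' : (dat Γ M a b' LK).d x (g • y) ≤ t := hg
      rw [hd] at hg'
      exact (hcmp' x (g • y)).trans (mul_le_mul_of_nonneg_left hg' (by linarith))
    refine ⟨h1.1.subset hsub, ?_⟩
    have h2 : (({g : Γ | (dat Γ M a b' LK).d x (g • y) ≤ t}.ncard : ℕ) : ℝ) ≤
        ({γ : Γ | ∃ x ∈ closure D, ∃ y ∈ closure D, eu (Vx m x (γ • y)) ≤ C2 * t}.ncard : ℕ) := by
      exact_mod_cast Set.ncard_le_ncard hsub h1.1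
    refine (h2.trans h1.2).trans ?_
    have h3 : C4 * Real.exp (C4 * (C2 * t)) ≤ |C4| * Real.exp (|C4| * (C2 * t)) := by
      refine mul_le_mul (le_abs_self _) (Real.exp_le_exp.2 ?_) (Real.exp_pos _).le (abs_nonneg _)
      exact mul_le_mul_of_nonneg_right (le_abs_self _) (by positivity)
    refine h3.trans ?_
    have h4 : |C4| ≤ Λ := by nlinarith
    have h5 : |C4| * C2 ≤ Λ := by nlinarith
    refine mul_le_mul h4 (Real.exp_le_exp.2 ?_) (Real.exp_pos _).le (by linarith)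
    calc |C4| * (C2 * t) = (|C4| * C2) * t := by ring
      _ ≤ Λ * t := mul_le_mul_of_nonneg_right h5 ht
  · intro x y x' y' h1 h2
    refine (hn5 i p hp a b' LK _ hc x y x' y' h1 h2).trans ?_
    have h3 : 0 ≤ (dat Γ M a b' LK).d x x' + (dat Γ M a b' LK).d y y' := by
      rw [hd, hd]
      exact add_nonneg (d0 _ _) (d0 _ _)
    refine mul_le_mul_of_nonneg_right ?_ h3
    have h4 : (1 : ℝ) ≤ 1 + (dat Γ M a b' LK).d x y := by linarith
    refine mul_le_mul (by exact_mod_cast hnΛ) (pow_le_pow_right₀ h4 hnΛ) (by positivity)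
      (Nat.cast_nonneg _)
  · intro x hx y hy
    rw [hd]
    have h1 := hup' x y
    have h2 := hC8 x hx y hy
    have h3 : C3 * ds m x y ≤ C3 * |C8| :=
      mul_le_mul_of_nonneg_left (h2.trans (le_abs_self _)) (by linarith)
    linarith
  · intro x hx y hxy
    rw [hd]
    have hx' := mem_closedBall_zero_iff.1 (hR hx)
    have h0 : ‖x - y‖ ≤ 1 := hxy.trans (by
      rw [div_le_iff₀ (by linarith)]
      linarith)
    have hy' : ‖y‖ ≤ R + 1 := by
      have : ‖y‖ ≤ ‖x‖ + ‖x - y‖ := by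
        have h1 : y = x - (x - y) := by abel
        calc ‖y‖ = ‖x - (x - y)‖ := by rw [← h1]
          _ ≤ ‖x‖ + ‖x - y‖ := norm_sub_le _ _
      linarith
    have h1 := hle x (mem_closedBall_zero_iff.2 (by linarith)) y (mem_closedBall_zero_iff.2 hy')
    rw [hbgm, norm_sub_rev] at h1
    have h2 := hup' x y
    have h3 : C3 * ds m x y ≤ C3 * (C7 * ‖x - y‖) := mul_le_mul_of_nonneg_left h1 (by linarith)
    have h4 : C3 * C7 * ‖x - y‖ ≤ Λ * ‖x - y‖ :=
      mul_le_mul_of_nonneg_right (by linarith) (norm_nonneg _)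
    linarith
  · intro x hx y hxy
    rw [hd] at hxy ⊢
    have h1 := hcmp' x y
    have h2 : ds m x y ≤ 1 := by
      have h3 : C2 * ds M x y ≤ C2 * (1 / Λ) := mul_le_mul_of_nonneg_left hxy (by linarith)
      have h4 : C2 * (1 / Λ) ≤ 1 := by
        rw [mul_one_div, div_le_one (by linarith)]
        linarith
      linarith
    have h5 := hlow x hx y (by rw [hbgm]; exact h2)
    rw [hbgm, dist_eq_norm] at h5
    have h6 : C6 * ds m x y ≤ C6 * (C2 * ds M x y) := mul_le_mul_of_nonneg_left h1 (by linarith)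
    have h7 : C2 * C6 * ds M x y ≤ Λ * ds M x y :=
      mul_le_mul_of_nonneg_right (by linarith) (d0 x y)
    linarith

end BE
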