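import Pool.Agent.LibUC88.U2
import Pool.Agent.LibB35.GQ1b
import Pool.Agent.LibSR85Z.Z1
import Pool.Agent.LibBE35E.A6
import Pool.Agent.LibBE35E.D5
import Pool.Agent.LibBE35E.D13
import Pool.Agent.LibBE35E.F2

/-! The dictionary between the classes of part E and the closed geodesics of stage 2. -/

open MeasureTheory Set Filter Topology
open scoped ContDiff ENNReal NNReal ComplexConjugate

namespace UC88

open BGS BR HG20 B35
open E35 (Cl tv pt xi)

variable {Γ : Type} [Group Γ] [MulAction Γ Pl] {D : Set Pl} {μ : Pl → Co} {a b LK : ℝ}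
  {G : SR85.Dat Γ}

theorem mk_one {g : Γ} : ConjClasses.mk g = 1 ↔ g = 1 := by
  rw [show (1 : ConjClasses Γ) = ConjClasses.mk 1 from rfl, ConjClasses.mk_eq_mk_iff_isConj]
  constructor
  · intro h
    obtain ⟨c, hc⟩ := isConj_iff.1 h
    have h1 : g = c⁻¹ * (c * g * c⁻¹) * c := by group
    rw [h1, hc]
    group
  · rintro rfl
    exact IsConj.refl _

/-- The properties of the dictionary `Φ`. -/
structure Dic (μ : Pl → Co) (M : Cl G) (Φ : Cg Γ → ConjClasses Γ) : Prop where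
  inj : Function.Injective Φ
  ne : ∀ q, Φ q ≠ 1
  surj : ∀ c : ConjClasses Γ, c ≠ 1 → ∃ q, Φ q = c
  l : ∀ q, M.l (Φ q) = ln μ q
  l0 : ∀ q, M.l0 (Φ q) = lp μ q.1
  n : ∀ q, M.n (Φ q) = q.2.1 + 1
  g0 : ∀ q, M.g0 (Φ q) = gpr q
  rep : ∀ q, M.rep (Φ q) = gel q
  x0 : ∀ q, M.x0 (Φ q) = (ax μ (gpr q)).1
  u0 : ∀ q, M.u0 (Φ q) = tc (ax μ (gpr q)).2

theorem cl_of (hc : Ctx D μ a b LK G) : ∃ (M : Cl G) (Φ : Cg Γ → ConjClasses Γ), Dic μ M Φ := by
  classical
  have hX := hc.hX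
  have hO := hc.hO
  have hm := hc.hm
  have key : ∀ c : ConjClasses Γ, ∃ q : Cg Γ, c ≠ 1 → ConjClasses.mk (gel q) = c := by
    intro c
    by_cases hc1 : c = 1
    · obtain ⟨g, hg⟩ : ∃ g : Γ, g ≠ 1 ∨ ∀ g : Γ, g = 1 := by
        by_cases h : ∃ g : Γ, g ≠ 1
        · exact ⟨h.choose, Or.inl h.choose_spec⟩
        · push Not at h
          exact ⟨1, Or.inr h⟩
      rcases hg with hg | hg
      · obtain ⟨q, -, -⟩ := cls_uni hX hO hm hg
        exact ⟨q, fun h => absurd hc1 h⟩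
      · by_contra hcon
        push Not at hcon
        -- the group is not trivial
        have h1 : ∀ z : Pl, z ∈ D := by
          intro z
          obtain ⟨γ, hγ, -⟩ := hX.orbit z
          rw [hg γ] at hγ
          have h2 : (1 : Γ) • z ∈ D := hγ
          rwa [one_smul] at h2
        obtain ⟨R, hR⟩ := hX.bdd.exists_norm_le
        have h2 := hR ((R + 1, 0) : Pl) (h1 _)
        have h3 : |R + 1| ≤ R := by
          have h4 : ‖((R + 1, 0) : Pl)‖ = |R + 1| := by
            rw [Prod.norm_def]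
            simp
          rwa [h4] at h2
        have h5 := le_abs_self (R + 1)
        linarith
    · obtain ⟨g, rfl⟩ := ConjClasses.exists_rep c
      have hg : g ≠ 1 := fun h => hc1 (mk_one.2 h)
      obtain ⟨q, hq, -⟩ := cls_uni hX hO hm hg
      exact ⟨q, fun _ => ConjClasses.mk_eq_mk_iff_isConj.2 hq⟩
  choose q hq using key
  have hC : ∀ q : Cg Γ, _ := fun q => cls_q hX hO hm q
  set M : Cl G := {
    rep := fun c => if c = 1 then 1 else gel (q c)
    g0 := fun c => gpr (q c)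
    x0 := fun c => (ax μ (gpr (q c))).1
    u0 := fun c => tc (ax μ (gpr (q c))).2
    l := fun c => ln μ (q c)
    l0 := fun c => lp μ (q c).1
    n := fun c => (q c).2.1 + 1
    hrep := fun c => by
      by_cases h1 : c = 1
      · rw [if_pos h1, h1]
        rfl
      · rw [if_neg h1]
        exact hq c h1
    ax := fun c h1 => by
      rw [if_neg h1]
      exact SR85Z.ax_of hc (hC (q c)).1.axis
    ax0 := fun c h1 => SR85Z.ax_of hc (hC (q c)).1.axis0
    cent := fun c h1 h => by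
      rw [if_neg h1]
      exact (hC (q c)).1.cent h
    pow := fun c h1 => by
      rw [if_neg h1]
      rfl } with hM
  refine ⟨M, fun q => ConjClasses.mk (gel q), ?_⟩
  have hne : ∀ q : Cg Γ, ConjClasses.mk (gel q) ≠ 1 := fun q h =>
    (hC q).2.2.2.1 (mk_one.1 h)
  have huni : ∀ q1 q2 : Cg Γ, ConjClasses.mk (gel q1) = ConjClasses.mk (gel q2) → q1 = q2 := by
    intro q1 q2 h
    obtain ⟨q3, -, h3⟩ := cls_uni hX hO hm (hC q2).2.2.2.1
    have h4 := h3 q1 (ConjClasses.mk_eq_mk_iff_isConj.1 h)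
    have h5 := h3 q2 (IsConj.refl _)
    rw [h4, h5]
  have hqq : ∀ q1 : Cg Γ, q (ConjClasses.mk (gel q1)) = q1 := fun q1 =>
    huni _ _ (hq _ (hne q1))
  refine ⟨fun q1 q2 h => huni q1 q2 h, hne, fun c h1 => ⟨q c, hq c h1⟩, ?_, ?_, ?_, ?_, ?_, ?_, ?_⟩
  · intro q1
    show ln μ (q (ConjClasses.mk (gel q1))) = _
    rw [hqq]
  · intro q1
    show lp μ (q (ConjClasses.mk (gel q1))).1 = _
    rw [hqq]
  · intro q1
    show (q (ConjClasses.mk (gel q1))).2.1 + 1 = _
    rw [hqq]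
  · intro q1
    show gpr (q (ConjClasses.mk (gel q1))) = _
    rw [hqq]
  · intro q1
    show (if ConjClasses.mk (gel q1) = 1 then 1 else gel (q (ConjClasses.mk (gel q1)))) = _
    rw [if_neg (hne q1), hqq]
  · intro q1
    show (ax μ (gpr (q (ConjClasses.mk (gel q1))))).1 = _
    rw [hqq]
  · intro q1
    show tc (ax μ (gpr (q (ConjClasses.mk (gel q1))))).2 = _
    rw [hqq]

variable {M : Cl G} {Φ : Cg Γ → ConjClasses Γ}

theorem wt_wg (hc : Ctx D μ a b LK G) (hD : Dic μ M Φ) (q : Cg Γ) : E35.wt M (Φ q) = wg μ q := by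
  have h1 := cls_q hc.hX hc.hO hc.hm q
  have h2 := SR85Z.Dax_eq hc (hg_ctx hc) h1.1.axis
  unfold E35.wt wg
  rw [hD.l0, hD.rep, hD.x0, h2, h1.2.1]

theorem rel_iff (hc : Ctx D μ a b LK G) (hD : Dic μ M Φ) (q q' : Cg Γ) :
    E35.Rel M (Φ q) (Φ q') ↔ q.1 = q'.1 := by
  have huni : ∀ q1 q2 : Cg Γ, IsConj (gel q1) (gel q2) → q1 = q2 := by
    intro q1 q2 h
    obtain ⟨q3, -, h3⟩ := cls_uni hc.hX hc.hO hc.hm (cls_q hc.hX hc.hO hc.hm q2).2.2.2.1
    rw [h3 q1 h, h3 q2 (IsConj.refl _)]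
  have hg : ∀ q : Cg Γ, gel (q.1, 0, q.2.2) = gpr q := by
    intro q
    unfold gel gpr
    simp
  have hg' : ∀ q : Cg Γ, gel (q.1, 0, !q.2.2) = (gpr q)⁻¹ := by
    intro q
    unfold gel gpr
    rcases q with ⟨p, n, o⟩
    cases o <;> simp
  unfold E35.Rel
  rw [hD.g0, hD.g0, ConjClasses.mk_eq_mk_iff_isConj, ConjClasses.mk_eq_mk_iff_isConj]
  constructor
  · rintro (h | h)
    · rw [← hg q, ← hg q'] at h
      have h1 := huni _ _ h
      exact (Prod.mk.inj h1).1
    · rw [← hg q, ← hg' q'] at h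
      have h1 := huni _ _ h
      exact (Prod.mk.inj h1).1
  · intro h
    have h1 : gpr q = gpr q' ∨ gpr q = (gpr q')⁻¹ := by
      rcases q with ⟨p, n, o⟩
      rcases q' with ⟨p', n', o'⟩
      simp only at h
      subst h
      unfold gpr
      cases o <;> cases o' <;> simp
    rcases h1 with h1 | h1
    · left
      rw [h1]
    · right
      rw [h1]

end UC88
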