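import Pool.Agent.LibB35.FA3
import Pool.Agent.LibB35.FA4
import Pool.Agent.LibB35.FA5
import Pool.Agent.LibUC88.Z2
import Pool.Agent.LibB35.FA1

/-! Part E for the base metrics of the blocks. -/

open MeasureTheory Set Filter Topology
open scoped ContDiff ENNReal NNReal ComplexConjugate unitInterval

namespace UC88

open BGS BR HG20 B35
open E35 (Cl tv pt xi)

variable {Γ : Type} [Group Γ] [MulAction Γ Pl] {D : Set Pl} {P : Dt} {κ : ℝ}

theorem block_UC (hP : OkD Γ D P) (hκ : 0 < κ) : ∃ (a b r : ℝ) (Λ k0 : ℕ), ∀ k ≥ k0,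
    ∀ ξ ∈ P.B Γ D κ k, ∃ LK : ℝ,
      Ctx D (P.X0 Γ D k ξ) a b LK (dat Γ (P.X0 Γ D k ξ) a b LK) ∧
      E35.UC D a b r Λ (dat Γ (P.X0 Γ D k ξ) a b LK) := by
  obtain ⟨k0, b0, hCF⟩ := CF_path hP hκ
  obtain ⟨b, r, Λ, h⟩ := BE.UC_CF hCF
  refine ⟨κ / 2, b, r, Λ, k0, fun k hk ξ hξ => ?_⟩
  have h1 := h ⟨(k, ξ, ξ), hk, hξ⟩ 0 (by simp)
  have h2 : BE.mm P.m (P.sP Γ D (k, ξ, ξ)) 0 = P.X0 Γ D k ξ := path_zero hP (k, ξ, ξ)
  simp only [h2] at h1
  refine h1 ?_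
  have h3 : ∀ z, curv (P.X Γ D (zer (bk k) ξ)) z < 0 := by
    intro z
    have h4 : curv (P.X0 Γ D k ξ) z ≤ -κ ^ 2 := hξ z
    have h5 : 0 < κ ^ 2 := by positivity
    have h6 : curv (P.X Γ D (zer (bk k) ξ)) z ≤ -κ ^ 2 := h4
    linarith
  obtain ⟨-, m', hm'⟩ := X_hm hP h3
  have h7 := m'.2.area
  rw [hm'] at h7
  exact h7

theorem dt_sgn (e : Bool) : sgn e ≠ 0 := by
  unfold sgn
  split_ifs <;> norm_num

/-- The logarithm of the mesh. -/
theorem log_mesh (k : ℕ) : (k : ℝ) ^ (2 / 3 : ℝ) ≤ Real.log ((bk k : ℝ) + 1) ∧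
    (k : ℝ) ≤ (Real.log ((bk k : ℝ) + 1)) ^ (3 / 2 : ℝ) := by
  have h0 := (bk_le k).1
  have h1 : (k : ℝ) ^ (2 / 3 : ℝ) ≤ Real.log ((bk k : ℝ) + 1) := by
    rw [Real.le_log_iff_exp_le (by positivity)]
    linarith
  refine ⟨h1, ?_⟩
  have hk : (0 : ℝ) ≤ k := Nat.cast_nonneg k
  calc (k : ℝ) = ((k : ℝ) ^ (2 / 3 : ℝ)) ^ (3 / 2 : ℝ) := by
        rw [← Real.rpow_mul hk]
        norm_num
    _ ≤ (Real.log ((bk k : ℝ) + 1)) ^ (3 / 2 : ℝ) :=
        Real.rpow_le_rpow (by positivity) h1 (by norm_num)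

open Classical in
/-- The tuples that no cell detects, `J = Fin n`. -/
theorem undet_fin (hP : OkD Γ D P) (hκ : 0 < κ) (n : ℕ) (K Λ1 : ℝ) :
    ∃ (c C : ℝ) (k0 : ℕ), 0 < c ∧ ∀ k ≥ k0, ∀ ξ ∈ P.B Γ D κ k, ∀ e : Fin n → Bool,
      ∃ Bd : Finset (Fin n → Cg Γ), ∑ q ∈ Bd, ∏ j, wg (P.X0 Γ D k ξ) (q j) ≤
          Real.exp (-c * (k : ℝ) ^ (2 / 3 : ℝ)) ∧
        ∀ q : Fin n → Cg Γ, q ∉ Bd → (∀ j, ln (P.X0 Γ D k ξ) (q j) ≤ K * k) →
          ∀ lam : Fin n → ℝ, (∀ j, 0 < sgn (e j) * lam j ∧ Λ1⁻¹ ≤ |lam j| ∧ |lam j| ≤ Λ1) →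
          (∀ c ∈ grid P.L (bk k + 1), |∑ j, lam j * ((q j).2.1 + 1) *
            vis (P.X0 Γ D k ξ) (bk k + 1) c (q j).1| ≤ ((bk k : ℝ) + 1) ^ (-(3 / 2) : ℝ)) →
          ∀ p : GH.PG Γ, |∑ j with (q j).1 = p, lam j * ((q j).2.1 + 1)| ≤
            C * ((bk k : ℝ) + 1) ^ (-(1 / 2) : ℝ) := by
  obtain ⟨a, b, r, Λ, k1, hUC⟩ := block_UC hP hκ
  set K' : ℝ := max K 0 with hK'
  set Λ' : ℝ := max Λ1 1 with hΛ'
  obtain ⟨κ1, R0, hκ1, hR0, hE⟩ := E35.partE (Γ := Γ) D a b r Λ n P.L hP.cx.dom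
    (le_max_right K 0 : 0 ≤ K') (le_max_right Λ1 1 : 1 ≤ Λ')
  -- the scale is large
  obtain ⟨k2, hk2⟩ : ∃ k2 : ℕ, ∀ k ≥ k2, R0 ≤ ((bk k + 1 : ℕ) : ℝ) := by
    have h1 : Tendsto (fun k : ℕ => Real.exp ((k : ℝ) ^ (2 / 3 : ℝ))) atTop atTop :=
      Real.tendsto_exp_atTop.comp ((tendsto_rpow_atTop (by norm_num)).comp
        tendsto_natCast_atTop_atTop)
    obtain ⟨k2, hk2⟩ := eventually_atTop.1 (h1.eventually_ge_atTop R0)
    refine ⟨k2, fun k hk => (hk2 k hk).trans ?_⟩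
    have := (bk_le k).1
    push_cast
    linarith
  refine ⟨κ1, Λ, max k1 k2, hκ1, fun k hk ξ hξ e => ?_⟩
  have hkk1 : k1 ≤ k := (le_max_left _ _).trans hk
  have hkk2 : k2 ≤ k := (le_max_right _ _).trans hk
  obtain ⟨LK, hc, hU⟩ := hUC k hkk1 ξ hξ
  obtain ⟨M, Φ, hD⟩ := cl_of hc
  obtain ⟨B, hBf, hBs, hBne, hB⟩ := hE _ hU M (bk k + 1) (hk2 k hkk2) (fun j => sgn (e j))
    (fun j => dt_sgn _)
  have hinj : Function.Injective (fun (q : Fin n → Cg Γ) (j : Fin n) => Φ (q j)) := by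
    intro q1 q2 h
    funext j
    exact hD.inj (congrFun h j)
  have hfin : {q : Fin n → Cg Γ | (fun j => Φ (q j)) ∈ B}.Finite := hBf.preimage hinj.injOn
  refine ⟨hfin.toFinset, ?_, ?_⟩
  · -- the sum
    have h1 : ∑ q ∈ hfin.toFinset, ∏ j, wg (P.X0 Γ D k ξ) (q j) =
        ∑ᶠ c ∈ B, ∏ i, E35.wt M (c i) := by
      rw [finsum_mem_eq_finite_toFinset_sum _ hBf]
      refine Finset.sum_bij (fun q _ j => Φ (q j)) ?_ ?_ ?_ ?_
      · intro q hq
        rw [Set.Finite.mem_toFinset] at hq ⊢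
        exact hq
      · intro q1 _ q2 _ h
        exact hinj h
      · intro c hcB
        rw [Set.Finite.mem_toFinset] at hcB
        choose q' hq' using fun i => hD.surj (c i) (hBne c hcB i)
        refine ⟨q', ?_, funext hq'⟩
        rw [Set.Finite.mem_toFinset]
        show (fun j => Φ (q' j)) ∈ B
        rw [show (fun j => Φ (q' j)) = c from funext hq']
        exact hcB
      · intro q _
        exact Finset.prod_congr rfl fun j _ => (wt_wg hc hD (q j)).symm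
    rw [h1]
    refine hBs.trans ?_
    have h2 := (bk_le k).1
    have h3 : Real.exp ((k : ℝ) ^ (2 / 3 : ℝ)) ≤ ((bk k + 1 : ℕ) : ℝ) := by
      push_cast
      linarith
    calc ((bk k + 1 : ℕ) : ℝ) ^ (-κ1) ≤ (Real.exp ((k : ℝ) ^ (2 / 3 : ℝ))) ^ (-κ1) :=
          Real.rpow_le_rpow_of_nonpos (Real.exp_pos _) h3 (by linarith)
      _ = Real.exp (-κ1 * (k : ℝ) ^ (2 / 3 : ℝ)) := by
          rw [← Real.exp_mul]
          ring_nf
  · intro q hq hln lam hlam hcell p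
    have hqB : (fun j => Φ (q j)) ∉ B := by
      intro h
      exact hq (hfin.mem_toFinset.2 h)
    have hell : ∀ j, Φ (q j) ≠ 1 ∧ M.l (Φ (q j)) ≤ E35.ell K' ((bk k + 1 : ℕ) : ℝ) := by
      intro j
      refine ⟨hD.ne _, ?_⟩
      rw [hD.l]
      have h1 := hln j
      have h2 := (log_mesh k).2
      have h3 : K * k ≤ K' * k := mul_le_mul_of_nonneg_right (le_max_left _ _) (Nat.cast_nonneg k)
      have h4 : K' * k ≤ K' * (Real.log ((bk k : ℝ) + 1)) ^ (3 / 2 : ℝ) :=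
        mul_le_mul_of_nonneg_left h2 (le_max_right _ _)
      unfold E35.ell
      push_cast
      linarith
    have hlam' : ∀ j, 0 < sgn (e j) * lam j ∧ 1 / Λ' ≤ |lam j| := by
      intro j
      obtain ⟨h1, h2, h3⟩ := hlam j
      refine ⟨h1, ?_⟩
      have h4 : lam j ≠ 0 := by
        intro h
        rw [h, mul_zero] at h1
        exact lt_irrefl _ h1
      have h5 : 0 < Λ1 := lt_of_lt_of_le (abs_pos.2 h4) h3
      refine le_trans ?_ h2
      rw [one_div]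
      exact inv_anti₀ h5 (le_max_left _ _)
    have hR1 : 1 ≤ bk k + 1 := by omega
    have hcell' : ∀ p ∈ grid P.L (bk k + 1), |∑ j, lam j * xi M (bk k + 1) p (Φ (q j))| ≤
        ((bk k + 1 : ℕ) : ℝ) ^ (-(3 / 2) : ℝ) := by
      intro p hp
      have h1 := hcell p hp
      have h2 : ∑ j, lam j * xi M (bk k + 1) p (Φ (q j)) =
          ∑ j, lam j * ((q j).2.1 + 1) * vis (P.X0 Γ D k ξ) (bk k + 1) p (q j).1 := by
        refine Finset.sum_congr rfl fun j _ => ?_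
        rw [xi_vis hc hU hD hR1]
        ring
      rw [h2]
      push_cast
      exact h1
    have hfinal := hB (fun j => Φ (q j)) hqB hell lam hlam' hcell'
    by_cases hp : ∃ i, (q i).1 = p
    · obtain ⟨i, hi⟩ := hp
      have h1 := hfinal i
      have h2 : ∑ j, (if E35.Rel M (Φ (q i)) (Φ (q j)) then lam j * (M.n (Φ (q j)) : ℝ) else 0) =
          ∑ j with (q j).1 = p, lam j * (((q j).2.1 : ℝ) + 1) := by
        rw [Finset.sum_filter]
        refine Finset.sum_congr rfl fun j _ => ?_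
        have h3 : E35.Rel M (Φ (q i)) (Φ (q j)) ↔ (q j).1 = p := by
          rw [rel_iff hc hD, hi]
          exact eq_comm
        by_cases h4 : (q j).1 = p
        · rw [if_pos (h3.2 h4), if_pos h4, hD.n]
          push_cast
          ring
        · rw [if_neg (fun h => h4 (h3.1 h)), if_neg h4]
      rw [h2] at h1
      push_cast at h1
      exact h1
    · have h1 : ∑ j with (q j).1 = p, lam j * (((q j).2.1 : ℝ) + 1) = 0 := by
        rw [Finset.filter_false_of_mem (fun j _ h => hp ⟨j, h⟩), Finset.sum_empty]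
      rw [h1, abs_zero]
      positivity

end UC88
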