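import Pool.Agent.LibUC88.Z3

/-! Part E for the base metrics of the blocks: the interface of `LibB35/IFE.lean`. -/

open MeasureTheory Set Filter Topology
open scoped ContDiff ENNReal NNReal ComplexConjugate unitInterval

namespace UC88

open BGS BR HG20 B35
open E35 (Cl tv pt xi)

variable {Γ : Type} [Group Γ] [MulAction Γ Pl] {D : Set Pl} {P : Dt} {κ : ℝ}

/-- Part E: the tuples that no cell detects. -/
theorem undet (hP : OkD Γ D P) (hκ : 0 < κ) {J : Type} [Fintype J] (K Λ : ℝ) :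
    ∃ (c C : ℝ) (k0 : ℕ), 0 < c ∧ ∀ k ≥ k0, ∀ ξ ∈ P.B Γ D κ k, ∀ e : J → Bool,
      ∃ Bd : Finset (J → Cg Γ), ∑ q ∈ Bd, ∏ j, wg (P.X0 Γ D k ξ) (q j) ≤
          Real.exp (-c * (k : ℝ) ^ (2 / 3 : ℝ)) ∧
        ∀ q : J → Cg Γ, q ∉ Bd → (∀ j, ln (P.X0 Γ D k ξ) (q j) ≤ K * k) →
          ∀ lam : J → ℝ, (∀ j, 0 < sgn (e j) * lam j ∧ Λ⁻¹ ≤ |lam j| ∧ |lam j| ≤ Λ) →
          (∀ c ∈ grid P.L (bk k + 1), |∑ j, lam j * ((q j).2.1 + 1) *
            vis (P.X0 Γ D k ξ) (bk k + 1) c (q j).1| ≤ ((bk k : ℝ) + 1) ^ (-(3 / 2) : ℝ)) →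
          open Classical in
          ∀ p : GH.PG Γ, |∑ j with (q j).1 = p, lam j * ((q j).2.1 + 1)| ≤
            C * ((bk k : ℝ) + 1) ^ (-(1 / 2) : ℝ) := by
  classical
  set n : ℕ := Fintype.card J with hn
  set φ : J ≃ Fin n := Fintype.equivFin J with hφ
  obtain ⟨c, C, k0, hc, h⟩ := undet_fin hP hκ n K Λ
  refine ⟨c, C, k0, hc, fun k hk ξ hξ e => ?_⟩
  obtain ⟨Bd, h1, h2⟩ := h k hk ξ hξ (fun i => e (φ.symm i))
  have hinj : Function.Injective (fun (q : Fin n → Cg Γ) (j : J) => q (φ j)) := by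
    intro q1 q2 hq
    funext i
    have := congrFun hq (φ.symm i)
    simpa using this
  refine ⟨Bd.image (fun (q : Fin n → Cg Γ) (j : J) => q (φ j)), ?_, ?_⟩
  · rw [Finset.sum_image (fun q1 _ q2 _ h => hinj h)]
    refine le_trans (le_of_eq ?_) h1
    refine Finset.sum_congr rfl fun q _ => ?_
    exact Equiv.prod_comp φ (fun i => wg (P.X0 Γ D k ξ) (q i))
  · intro q hq hln lam hlam hcell p
    have hq' : (fun i => q (φ.symm i)) ∉ Bd := by
      intro h3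
      apply hq
      rw [Finset.mem_image]
      exact ⟨_, h3, by funext j; simp⟩
    have e1 : ∀ f : J → ℝ, ∑ i, f (φ.symm i) = ∑ j, f j := fun f => Equiv.sum_comp φ.symm f
    have h3 := h2 (fun i => q (φ.symm i)) hq' (fun i => hln _) (fun i => lam (φ.symm i))
      (fun i => hlam _) (fun c' hc' => by
        have h4 := hcell c' hc'
        have h5 := e1 (fun j => lam j * ((q j).2.1 + 1) *
          vis (P.X0 Γ D k ξ) (bk k + 1) c' (q j).1)
        rw [← h5] at h4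
        exact h4) p
    have h6 := e1 (fun j => if (q j).1 = p then lam j * (((q j).2.1 : ℝ) + 1) else 0)
    rw [Finset.sum_filter] at h3 ⊢
    rw [← h6]
    exact h3

/-- Part E': the weights. -/
theorem wts (hP : OkD Γ D P) (hκ : 0 < κ) : ∃ (C : ℝ) (k0 : ℕ), 1 ≤ C ∧ ∀ k ≥ k0,
    ∀ ξ ∈ P.B Γ D κ k, (∀ q : Cg Γ, 0 ≤ wg (P.X0 Γ D k ξ) q ∧ wg (P.X0 Γ D k ξ) q ≤ C) ∧
      (∀ p : GH.PG Γ, C⁻¹ ≤ lp (P.X0 Γ D k ξ) p) ∧
      ∀ t : ℝ, 1 ≤ t → {q : Cg Γ | ln (P.X0 Γ D k ξ) q ≤ t}.Finite ∧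
        ((Cs (Γ := Γ) (P.X0 Γ D k ξ) t).card : ℝ) ≤ Real.exp (C * t) ∧
        ∑ q ∈ Cs (Γ := Γ) (P.X0 Γ D k ξ) t, wg (P.X0 Γ D k ξ) q ^ 2 ≤ C * t ^ C := by
  classical
  obtain ⟨a, b, r, Λ, k1, hUC⟩ := block_UC hP hκ
  obtain ⟨C1, hC1, hfin⟩ := E35.cl_fin (Γ := Γ) D a b r Λ
  obtain ⟨N, hN⟩ := E35.wt_sum (Γ := Γ) D a b r Λ
  set C : ℝ := 1 + |1 / a| + |r⁻¹| + 2 * C1 + N * 2 ^ N + N with hCd
  have k1' := abs_nonneg (1 / a)
  have k2' := abs_nonneg r⁻¹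
  have k3' : (0 : ℝ) ≤ N * 2 ^ N := by positivity
  have k4' : (0 : ℝ) ≤ N := Nat.cast_nonneg N
  refine ⟨C, k1, by linarith, fun k hk ξ hξ => ?_⟩
  obtain ⟨LK, hc, hU⟩ := hUC k hk ξ hξ
  obtain ⟨M, Φ, hD⟩ := cl_of hc
  refine ⟨fun q => ?_, fun p => ?_, fun t ht => ?_⟩
  · rw [← wt_wg hc hD]
    refine ⟨E35.wt_nonneg M (hD.ne q), ?_⟩
    have h1 := E35.wt_le hU M (hD.ne q)
    have h2 := le_abs_self (1 / a)
    linarith
  · have h1 := E35.l0_sys hU M (hD.ne (p, 0, true))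
    rw [hD.l0] at h1
    refine le_trans ?_ h1
    have h2 := hU.r_pos
    have h3 : r⁻¹ ≤ C := by
      have := le_abs_self r⁻¹
      linarith
    rw [inv_le_comm₀ (by linarith) h2]
    exact h3
  · have h0 : (0 : ℝ) ≤ t := by linarith
    have hmap : ∀ q : Cg Γ, ln (P.X0 Γ D k ξ) q ≤ t →
        Φ q ∈ {c : ConjClasses Γ | c ≠ 1 ∧ M.l c ≤ t} := fun q hq =>
      ⟨hD.ne q, by rw [hD.l]; exact hq⟩
    obtain ⟨hf1, hf2⟩ := hfin _ hU M t h0
    have hset : {q : Cg Γ | ln (P.X0 Γ D k ξ) q ≤ t} =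
        Φ ⁻¹' {c : ConjClasses Γ | c ≠ 1 ∧ M.l c ≤ t} := by
      ext q
      constructor
      · exact fun hq => hmap q hq
      · rintro ⟨-, hq⟩
        rw [hD.l] at hq
        exact hq
    have hfq : {q : Cg Γ | ln (P.X0 Γ D k ξ) q ≤ t}.Finite := by
      rw [hset]
      exact hf1.preimage hD.inj.injOn
    have hCs : Cs (Γ := Γ) (P.X0 Γ D k ξ) t = hfq.toFinset := by
      unfold B35.Cs
      rw [dif_pos hfq]
    refine ⟨hfq, ?_, ?_⟩
    · have h1 : ((Cs (Γ := Γ) (P.X0 Γ D k ξ) t).image Φ) ⊆ hf1.toFinset := by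
        intro c hc'
        rw [Finset.mem_image] at hc'
        obtain ⟨q, hq, rfl⟩ := hc'
        rw [hCs, Set.Finite.mem_toFinset] at hq
        rw [Set.Finite.mem_toFinset]
        exact hmap q hq
      have h2 := Finset.card_le_card h1
      rw [Finset.card_image_of_injective _ hD.inj, ← Set.ncard_eq_toFinset_card _ hf1] at h2
      have h3 : ((Cs (Γ := Γ) (P.X0 Γ D k ξ) t).card : ℝ) ≤ C1 * Real.exp (C1 * t) :=
        le_trans (by exact_mod_cast h2) hf2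
      refine h3.trans ?_
      have h4 : C1 ≤ Real.exp (C1 * t) := by
        have h5 := Real.add_one_le_exp (C1 * t)
        nlinarith
      calc C1 * Real.exp (C1 * t) ≤ Real.exp (C1 * t) * Real.exp (C1 * t) :=
            mul_le_mul_of_nonneg_right h4 (Real.exp_pos _).le
        _ = Real.exp (2 * C1 * t) := by
            rw [← Real.exp_add]
            ring_nf
        _ ≤ Real.exp (C * t) := by
            refine Real.exp_le_exp.2 (mul_le_mul_of_nonneg_right ?_ h0)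
            linarith
    · have h1 := hN _ hU M t h0 ((Cs (Γ := Γ) (P.X0 Γ D k ξ) t).image Φ) (by
        intro c hc'
        rw [Finset.mem_image] at hc'
        obtain ⟨q, hq, rfl⟩ := hc'
        rw [hCs, Set.Finite.mem_toFinset] at hq
        exact hmap q hq)
      rw [Finset.sum_image (fun q1 _ q2 _ h => hD.inj h)] at h1
      have h2 : ∑ q ∈ Cs (Γ := Γ) (P.X0 Γ D k ξ) t, wg (P.X0 Γ D k ξ) q ^ 2 ≤
          N * (1 + t) ^ N := by
        refine le_trans (le_of_eq ?_) h1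
        exact Finset.sum_congr rfl fun q _ => by rw [wt_wg hc hD]
      refine h2.trans ?_
      have h3 : (1 + t) ^ N ≤ 2 ^ N * t ^ N := by
        rw [← mul_pow]
        exact pow_le_pow_left₀ (by linarith) (by linarith) N
      have h4 : t ^ N ≤ t ^ C := by
        rw [← Real.rpow_natCast]
        exact Real.rpow_le_rpow_of_exponent_le ht (by linarith)
      have h5 : (0 : ℝ) ≤ t ^ N := by positivity
      have h6 : (0 : ℝ) ≤ t ^ C := by positivity
      calc (N : ℝ) * (1 + t) ^ N ≤ N * (2 ^ N * t ^ N) := mul_le_mul_of_nonneg_left h3 k4'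
        _ = (N * 2 ^ N) * t ^ N := by ring
        _ ≤ C * t ^ C := mul_le_mul (by linarith) h4 h5 (by linarith)

end UC88
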